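import Pool.Agent.Helper40.Ct.Goals

set_option autoImplicit false

open Finset

namespace Pool.Agent.Helper70.Ct

open Pool.Agent.Helper40.Ct

/-- the field -/
noncomputable def fld {d r : ℕ} (n : Fin (d + 1) → Fin r → (Fin d → ℝ))
    (c : Fin (d + 1) → Fin r → ℝ) (ε : ℝ) : El d r → (Fin d → ℝ) → (Fin d → ℝ)
  | none, q => -q
  | some (i, a), q => nv (n i a) (c i a) q - ε • q

theorem continuous_fld {d r : ℕ} (n : Fin (d + 1) → Fin r → (Fin d → ℝ))
    (c : Fin (d + 1) → Fin r → ℝ) (ε : ℝ) (e : El d r) : Continuous (fld n c ε e) := by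
  rcases e with _ | ⟨i, a⟩
  · exact continuous_neg
  · show Continuous fun q => nv (n i a) (c i a) q - ε • q
    unfold nv
    fun_prop

/-- solutions with an error, from the theorem for fields that point inwards -/
theorem hype : BALL → HYPE := by
  intro hB d r hd hr hp n c _ ε hε
  set C : ℝ := ∑ i, ∑ a, (c i a) ^ 2 with hC
  have hC0 : 0 ≤ C := Finset.sum_nonneg fun i _ => Finset.sum_nonneg fun a _ => sq_nonneg _
  have hCle : ∀ i a, (c i a) ^ 2 ≤ C := by
    intro i a
    calc (c i a) ^ 2 ≤ ∑ a, (c i a) ^ 2 :=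
          Finset.single_le_sum (f := fun a => (c i a) ^ 2) (fun a _ => sq_nonneg _)
            (Finset.mem_univ a)
      _ ≤ C := Finset.single_le_sum (f := fun i => ∑ a, (c i a) ^ 2)
            (fun i _ => Finset.sum_nonneg fun a _ => sq_nonneg _) (Finset.mem_univ i)
  have hR : (0 : ℝ) < 1 + C / ε := by positivity
  obtain ⟨q, π, hq⟩ := hB d r hd hr hp (fld n c ε) (continuous_fld n c ε) (1 + C / ε) hR (by
    intro e q hq2
    have hR1 : (1 : ℝ) ≤ 1 + C / ε := by
      have : 0 ≤ C / ε := by positivity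
      linarith
    rcases e with _ | ⟨i, a⟩
    · show ∑ k, (-q) k * q k < 0
      have h1 : ∑ k, (-q) k * q k = -∑ k, q k ^ 2 := by
        rw [← Finset.sum_neg_distrib]
        exact Finset.sum_congr rfl fun k _ => by simp only [Pi.neg_apply]; ring
      rw [h1]
      nlinarith
    · show ∑ k, (nv (n i a) (c i a) q - ε • q) k * q k < 0
      have h1 : ∑ k, (nv (n i a) (c i a) q - ε • q) k * q k =
          (c i a - ∑ k, n i a k * q k) * (∑ k, n i a k * q k) - ε * ∑ k, q k ^ 2 := by
        rw [Finset.mul_sum, Finset.mul_sum, ← Finset.sum_sub_distrib]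
        refine Finset.sum_congr rfl fun k _ => ?_
        simp only [nv, Pi.sub_apply, Pi.smul_apply, smul_eq_mul]
        ring
      rw [h1]
      set s : ℝ := ∑ k, n i a k * q k
      have h2 : (c i a - s) * s ≤ (c i a) ^ 2 / 4 := by nlinarith [sq_nonneg (c i a - 2 * s)]
      have h3 := hCle i a
      have h4 : ε * (1 + C / ε) ^ 2 ≤ ε * ∑ k, q k ^ 2 := mul_le_mul_of_nonneg_left hq2 hε.le
      have h5 : ε + C ≤ ε * (1 + C / ε) ^ 2 := by
        have h6 : ε * (1 + C / ε) = ε + C := by field_simp
        have h7 : ε * (1 + C / ε) ^ 2 = (ε + C) * (1 + C / ε) := by rw [← h6]; ring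
        rw [h7]
        nlinarith
      nlinarith)
  refine ⟨q, π, fun j => ?_⟩
  obtain ⟨c', h0, h1, h2⟩ := hq j.succ
  refine ⟨fun i a => if π i a.succ = j.succ then c' (some (i, a)) else 0, ?_, ?_, ?_, ?_⟩
  · intro i a
    dsimp only
    split_ifs
    · exact h0 _
    · exact le_rfl
  · intro i a h
    simp [h]
  · rw [Finset.sum_filter, Fintype.sum_option, Fintype.sum_prod_type] at h1
    have h3 : ¬ (part π none = j.succ) := (Fin.succ_ne_zero j).symm
    rw [if_neg h3, zero_add] at h1
    exact h1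
  · rw [Finset.sum_filter, Fintype.sum_option, Fintype.sum_prod_type] at h1
    rw [Finset.sum_filter, Fintype.sum_option, Fintype.sum_prod_type] at h2
    have h3 : ¬ (part π none = j.succ) := (Fin.succ_ne_zero j).symm
    rw [if_neg h3, zero_add] at h1
    rw [if_neg h3, zero_add] at h2
    have h1' : ∑ i, ∑ a, (if π i a.succ = j.succ then c' (some (i, a)) else 0) = 1 := h1
    have h2' : ∑ i, ∑ a, (if π i a.succ = j.succ then
        c' (some (i, a)) • (nv (n i a) (c i a) q - ε • q) else 0) = 0 := h2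
    have h4 : ∑ i, ∑ a, (if π i a.succ = j.succ then
        c' (some (i, a)) • (nv (n i a) (c i a) q - ε • q) else 0) =
        ∑ i, ∑ a, (if π i a.succ = j.succ then c' (some (i, a)) else 0) • nv (n i a) (c i a) q -
        (∑ i, ∑ a, (if π i a.succ = j.succ then c' (some (i, a)) else 0)) • (ε • q) := by
      rw [Finset.sum_smul, ← Finset.sum_sub_distrib]
      refine Finset.sum_congr rfl fun i _ => ?_
      rw [Finset.sum_smul, ← Finset.sum_sub_distrib]
      refine Finset.sum_congr rfl fun a _ => ?_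
      split_ifs
      · rw [smul_sub]
      · simp
    rw [h4, h1', one_smul] at h2'
    exact sub_eq_zero.mp h2'

end Pool.Agent.Helper70.Ct
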